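import Pool.Agent.H75.GS.Targets
import Pool.Agent.H59.NB.BBV

/-!
# Row QMS of the board gsq_modules: the total magnitude of the queries
-/

set_option autoImplicit false

namespace Pool.Agent.H1.GS

open Finset Pool.Agent.H6.NB Pool.Agent.H70.OQ Pool.Agent.H75.GS

theorem ic_nonneg' (p : Prop) : 0 ≤ ic p := by
  unfold ic
  split_ifs <;> norm_num

theorem sum_ic_le {ι : Type} [DecidableEq ι] (s : Finset ι) (o : Option ι) :
    ∑ w ∈ s, ic (o = some w) ≤ 1 := by
  cases o with
  | none =>
    refine le_trans (le_of_eq (Finset.sum_eq_zero fun w _ => ?_)) zero_le_one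
    unfold ic
    rw [if_neg (by simp)]
  | some v =>
    by_cases hv : v ∈ s
    · rw [Finset.sum_eq_single_of_mem v hv]
      · unfold ic
        rw [if_pos rfl]
      · intro w _ hw
        unfold ic
        rw [if_neg]
        intro h
        exact hw (Option.some.inj h).symm
    · refine le_trans (le_of_eq (Finset.sum_eq_zero fun w hw => ?_)) zero_le_one
      unfold ic
      rw [if_neg]
      intro h
      exact hv ((Option.some.inj h).symm ▸ hw)

/-- QMS: the total magnitude of the queries. -/
theorem pf_QMS : T_QMS := by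
  classical
  intro Q O
  refine ⟨fun w => sum_nonneg fun t _ => sum_nonneg fun z _ =>
    mul_nonneg (ic_nonneg' _) (sq_nonneg _), fun s => ?_⟩
  unfold qm
  rw [sum_comm]
  have h1 : ∀ t ∈ range Q.T, ∑ w ∈ s, ∑ z, ic (Q.query z = some w) * ‖Q.state O t z‖ ^ 2 ≤ 1 := by
    intro t _
    rw [sum_comm]
    have h2 : ∑ z, ‖Q.state O t z‖ ^ 2 = 1 := by
      rw [← Pool.Agent.H59.NB.BBV.norm_ev_sq, Pool.Agent.H59.NB.BBV.norm_state, one_pow]
    rw [← h2]
    refine sum_le_sum fun z _ => ?_
    rw [← sum_mul]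
    exact mul_le_of_le_one_left (sq_nonneg _) (sum_ic_le s (Q.query z))
  refine (sum_le_sum h1).trans (le_of_eq ?_)
  simp

end Pool.Agent.H1.GS
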