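import Pool.Agent.H75.GS.Targets

/-!
# Row WLM of the board gsq_modules: the language `wlang` is in the first level
-/

set_option autoImplicit false

namespace Pool.Agent.H1.GS

open Pool.Agent.H6.NB Pool.Agent.H70.OQ Pool.Agent.H75.GS

theorem arith (n : ℕ) : 3 * n + 1 ≤ n ^ 4 + 4 := by
  rcases Nat.lt_or_ge n 2 with h | h
  · interval_cases n <;> norm_num
  · have h1 : 2 ^ 3 ≤ n ^ 3 := Nat.pow_le_pow_left h 3
    have h2 : n ^ 4 = n ^ 3 * n := pow_succ n 3
    have h3 : 2 ^ 3 * n ≤ n ^ 3 * n := Nat.mul_le_mul_right n h1
    omega

/-- the decision tree of the machine -/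
def trw (x : List Bool) : List (List Bool) → DT
  | [] => DT.leaf false
  | v :: _ => if v.length = 2 * x.length then
      DT.node (false :: (x ++ v)) (DT.leaf false) (DT.leaf true) else DT.leaf false

/-- the machine -/
def machw : Machine 1 where
  c := 4
  tree := trw
  depth_le := by
    intro x ws _ _
    have h1 : 1 ≤ x.length ^ 4 + 4 := by omega
    cases ws with
    | nil => simp [trw, DT.depth]
    | cons v vs =>
      simp only [trw]
      split_ifs
      · simp [DT.depth]
      · simp [DT.depth]
  short := by
    intro x ws _ _
    cases ws with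
    | nil => trivial
    | cons v vs =>
      simp only [trw]
      split_ifs with h
      · refine ⟨?_, trivial, trivial⟩
        rw [List.length_cons, List.length_append, h]
        have := arith x.length
        omega
      · trivial

/-- WLM: the language `wlang` is in the first level. -/
theorem pf_WLM : T_WLM := by
  refine ⟨machw, fun O => ?_⟩
  ext x
  change (∃ v : List Bool, v.length ≤ x.length ^ 4 + 4 ∧ (trw x [v]).eval O = true) ↔
    ∃ v : List Bool, v.length = 2 * x.length ∧ O (false :: (x ++ v)) = true
  refine exists_congr fun v => ?_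
  by_cases h : v.length = 2 * x.length
  · have h1 : (trw x [v]).eval O = O (false :: (x ++ v)) := by
      simp only [trw, if_pos h, DT.eval]
      cases O (false :: (x ++ v)) <;> simp
    rw [h1]
    constructor
    · rintro ⟨-, h2⟩
      exact ⟨h, h2⟩
    · rintro ⟨-, h2⟩
      refine ⟨?_, h2⟩
      have := arith x.length
      omega
  · have h1 : (trw x [v]).eval O = false := by
      simp only [trw, if_neg h, DT.eval]
    rw [h1]
    constructor
    · rintro ⟨-, h2⟩
      exact absurd h2 Bool.false_ne_true
    · rintro ⟨h2, -⟩
      exact absurd h2 h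

end Pool.Agent.H1.GS
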